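import Pool.Agent.W458.MF.PDefs

/-!
# The coniveau filtrations: definitions
-/

open CategoryTheory AlgebraicGeometry Polynomial

universe u v

namespace Pool.Agent.W5h58.GC

open Pool.Agent.H914 Pool.Agent.W534 VarClass Obj WeilCohomology Pool.Agent.W458.MF

/-- The sum of the generalised eigenspaces of `F` for the eigenvalues `α` such that `α / c` is an
algebraic integer. -/
noncomputable def integralPart {K V : Type*} [Field K] [AddCommGroup V] [Module K V]
    (F : V →ₗ[K] V) (c : K) : Submodule K V :=
  ⨆ (α : K) (_ : IsIntegral ℤ (α / c)), Module.End.maxGenEigenspace F α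

/-- `N_l ^ n H(Z)`: the sum of the generalised eigenspaces of the Frobenius endomorphism of `Z`
(relative to the field with `q = p ^ (e Z)` elements) for the eigenvalues `α` such that `α / q ^ n`
is an algebraic integer. For `n = 0` this is `H(Z)`, since the eigenvalues of Frobenius
endomorphisms are algebraic integers. -/
noncomputable def galoisConiveau {k : Type u} [Field k] {𝒱 : VarClass k} {ops : CycleOps 𝒱}
    {W : WeilCohomology.{u, v} ops} {p : ℕ} (Φ : FrobSystem W p) (Z : 𝒱.Obj) (n : ℕ) :
    Submodule W.K (W.H Z) :=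
  integralPart (W.map (Φ.Fr Z)).toLinearMap ((p : W.K) ^ (Φ.e Z * n))

/-- `N ^ n H(Z)`: the linear combinations of the classes `g_* (c y)`, where `g` is a morphism from a
variety `T` to `Z`, `c` is the class of a cycle of codimension `j` on `T`, hence of dimension
`dim T - j ≤ dim Z - n`, and `y` is any class on `T`. Such a class is supported on the image of the
cycle; with `c = 1` one gets the images of the Gysin maps for `dim T ≤ dim Z - n`. -/
def geometricConiveau {k : Type u} [Field k] {𝒱 : VarClass k} {ops : CycleOps 𝒱}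
    {W : WeilCohomology.{u, v} ops} {p : ℕ} (Φ : FrobSystem W p) (Z : 𝒱.Obj) (n : ℕ) :
    Submodule W.K (W.H Z) :=
  Submodule.span W.K {x | ∃ (T : 𝒱.Obj) (g : T ⟶ Z) (j : ℕ) (z : T.Cycles),
    ∃ y ∈ galoisConiveau Φ T 0, T.IsCyc j z ∧ T.dim + n ≤ Z.dim + j ∧
      x = W.push g (W.cl T z * y)}

end Pool.Agent.W5h58.GC
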