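import Pool.Agent.W5h58.GC.CDefs
import Pool.Agent.W5h58.GT.Geo

/-!
# The calculus of the coniveau filtrations
-/

set_option autoImplicit false

open CategoryTheory AlgebraicGeometry Polynomial

universe u v

namespace Pool.Agent.W5h58.GC

open Pool.Agent.H914 Pool.Agent.W534 VarClass Obj WeilCohomology Pool.Agent.W458.MF
  Pool.Agent.H281R3.HT Pool.Agent.W536.RR Pool.Agent.W521.Frob

section Lin

variable {K V : Type*} [Field K] [AddCommGroup V] [Module K V]

lemma mem_integralPart {F : V →ₗ[K] V} {c α : K} (h : IsIntegral ℤ (α / c)) {v : V}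
    (hv : v ∈ Module.End.maxGenEigenspace F α) : v ∈ integralPart F c :=
  (le_iSup₂_of_le (f := fun (α : K) (_ : IsIntegral ℤ (α / c)) =>
    Module.End.maxGenEigenspace F α) α h le_rfl) hv

lemma integralPart_induction {F : V →ₗ[K] V} {c : K} {q : V → Prop} (h0 : q 0)
    (hadd : ∀ x y, q x → q y → q (x + y))
    (h : ∀ (α : K), IsIntegral ℤ (α / c) → ∀ v ∈ Module.End.maxGenEigenspace F α, q v) {v : V}
    (hv : v ∈ integralPart F c) : q v := by
  unfold integralPart at hv
  induction hv using Submodule.iSup_induction' with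
  | mem α x hx =>
    induction hx using Submodule.iSup_induction' with
    | mem hα x hx => exact h α hα x hx
    | zero => exact h0
    | add x y _ _ hx hy => exact hadd x y hx hy
  | zero => exact h0
  | add x y _ _ hx hy => exact hadd x y hx hy

/-- Generalised eigenvectors of powers. -/
lemma mem_integralPart_of_pow [IsAlgClosed K] [Module.Finite K V] {F : Module.End K V} {c : K}
    {t : ℕ} (ht : 0 < t) {γ : K} {v : V} (hv : v ∈ Module.End.maxGenEigenspace (F ^ t) γ)
    (hγ : IsIntegral ℤ (γ / c ^ t)) : v ∈ integralPart F c := by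
  have h1 := mem_span_gen (T := F ^ t)
    (M := {v | ∃ ν : K, v ∈ Module.End.maxGenEigenspace F ν})
    (by
      rintro x ⟨ν, hx⟩
      exact ⟨_, gen_mono F ν t hx⟩) (span_gen_top F v) hv
  refine Submodule.span_le.2 ?_ h1
  rintro x ⟨⟨ν, hx⟩, hxγ⟩
  by_cases hx0 : x = 0
  · rw [hx0]
    exact Submodule.zero_mem _
  have h2 := eq_of_mem_gen (gen_mono F ν t hx) hxγ hx0
  refine mem_integralPart ?_ hx
  apply IsIntegral.of_pow ht
  rw [div_pow, h2]
  exact hγ

end Lin

section Alg

variable {K A : Type*} [Field K] [Ring A] [Algebra K A]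

/-- Products of generalised eigenvectors. -/
lemma gen_mul (F : A →ₐ[K] A) {α β : K} {x y : A}
    (hx : x ∈ Module.End.maxGenEigenspace (F.toLinearMap : Module.End K A) α)
    (hy : y ∈ Module.End.maxGenEigenspace (F.toLinearMap : Module.End K A) β) :
    x * y ∈ Module.End.maxGenEigenspace (F.toLinearMap : Module.End K A) (α * β) := by
  have key : ∀ (N a b : ℕ) (x y : A), a + b = N →
      (((F.toLinearMap : Module.End K A) - α • (1 : Module.End K A)) ^ a) x = 0 →
      (((F.toLinearMap : Module.End K A) - β • (1 : Module.End K A)) ^ b) y = 0 →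
      (((F.toLinearMap : Module.End K A) - (α * β) • (1 : Module.End K A)) ^ N) (x * y) = 0 := by
    intro N
    induction N with
    | zero =>
      intro a b x y hab h1 h2
      have ha : a = 0 := by omega
      subst ha
      rw [pow_zero, Module.End.one_apply] at h1
      rw [h1, zero_mul, map_zero]
    | succ N ih =>
      intro a b x y hab h1 h2
      cases a with
      | zero =>
        rw [pow_zero, Module.End.one_apply] at h1
        rw [h1, zero_mul, map_zero]
      | succ a =>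
        cases b with
        | zero =>
          rw [pow_zero, Module.End.one_apply] at h2
          rw [h2, mul_zero, map_zero]
        | succ b =>
          have e1 : ((F.toLinearMap : Module.End K A) - (α * β) • (1 : Module.End K A)) (x * y) =
              (((F.toLinearMap : Module.End K A) - α • (1 : Module.End K A)) x) * F y +
                α • (x * (((F.toLinearMap : Module.End K A) - β • (1 : Module.End K A)) y)) := by
            simp only [LinearMap.sub_apply, LinearMap.smul_apply, Module.End.one_apply,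
              AlgHom.toLinearMap_apply, map_mul, sub_mul, mul_sub, smul_mul_assoc, mul_smul_comm,
              smul_sub, smul_smul]
            abel
          rw [pow_succ, Module.End.mul_apply, e1, map_add, map_smul]
          rw [pow_succ, Module.End.mul_apply] at h1
          have h3 := ih a (b + 1) _ (F y) (by omega) h1 (by
            have hc : Commute (F.toLinearMap : Module.End K A)
                (((F.toLinearMap : Module.End K A) - β • (1 : Module.End K A)) ^ (b + 1)) := by
              apply Commute.pow_right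
              exact (Commute.refl _).sub_right ((Commute.one_right _).smul_right β)
            have h4 := congrArg (fun G : Module.End K A => G y) hc.eq
            simp only [Module.End.mul_apply] at h4
            rw [h2, map_zero] at h4
            exact h4.symm)
          rw [pow_succ, Module.End.mul_apply] at h2
          have h5 := ih (a + 1) b x _ (by omega) (by
            rw [pow_succ, Module.End.mul_apply]
            exact h1) h2
          rw [h3, h5, smul_zero, add_zero]
  rw [Module.End.mem_maxGenEigenspace] at hx hy ⊢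
  obtain ⟨a, ha⟩ := hx
  obtain ⟨b, hb⟩ := hy
  exact ⟨a + b, key (a + b) a b x y rfl ha hb⟩

end Alg

variable {k : Type u} [Field k] {𝒱 : VarClass k} {ops : CycleOps 𝒱}
  {W : WeilCohomology.{u, v} ops} {p : ℕ} {Φ : FrobSystem W p} {S T Z : 𝒱.Obj}

/-- Generalised eigenvectors at level `t`. -/
lemma mem_gal_of_frob [IsAlgClosed W.K] {t n : ℕ} (ht : 0 < t) {γ : W.K} {v : W.H Z}
    (hv : v ∈ Module.End.maxGenEigenspace (frob Φ Z t) γ)
    (hγ : IsIntegral ℤ (γ / (p : W.K) ^ (Φ.e Z * n * t))) : v ∈ galoisConiveau Φ Z n := by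
  refine mem_integralPart_of_pow (F := (W.map (Φ.Fr Z)).toLinearMap) ht (γ := γ) ?_ ?_
  · rw [← GT.frob_eq_pow]
    exact hv
  · rw [← pow_mul]
    exact hγ

lemma gal_induction {n : ℕ} {q : W.H Z → Prop} (h0 : q 0) (hadd : ∀ x y, q x → q y → q (x + y))
    (h : ∀ (α : W.K), IsIntegral ℤ (α / (p : W.K) ^ (Φ.e Z * n)) →
      ∀ v ∈ Module.End.maxGenEigenspace (W.map (Φ.Fr Z)).toLinearMap α, q v) {v : W.H Z}
    (hv : v ∈ galoisConiveau Φ Z n) : q v :=
  integralPart_induction h0 hadd h hv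

/-- **Pull-backs.** -/
lemma gal_map [IsAlgClosed W.K] (g : S ⟶ T) {n : ℕ} {y : W.H T} (hy : y ∈ galoisConiveau Φ T n) :
    W.map g y ∈ galoisConiveau Φ S n := by
  refine gal_induction (q := fun y => W.map g y ∈ galoisConiveau Φ S n) ?_ ?_ ?_ hy
  · rw [map_zero]; exact Submodule.zero_mem _
  · intro x y hx hy; rw [map_add]; exact Submodule.add_mem _ hx hy
  · intro α hα v hv
    obtain ⟨a, ha, h⟩ := exists_comm Φ g
    obtain ⟨s', hs', he, hc⟩ := h 1 one_pos
    have h1 := GT.gen_frob hv s'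
    have h2 : W.map g v ∈ Module.End.maxGenEigenspace (frob Φ S (a * 1)) (1 * α ^ s') :=
      gen_map (θ := (W.map g).toLinearMap) (c := 1) (fun x => by
        rw [one_smul]
        exact hc x) h1
    refine mem_gal_of_frob (Nat.mul_pos ha one_pos) h2 ?_
    rw [one_mul]
    have h3 := hα.pow s'
    rw [div_pow, ← pow_mul] at h3
    have e : Φ.e S * n * (a * 1) = Φ.e T * n * s' := by
      calc Φ.e S * n * (a * 1) = n * (a * 1 * Φ.e S) := by ring
        _ = n * (s' * Φ.e T) := by rw [he]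
        _ = _ := by ring
    rw [e]
    exact h3

/-- **Products.** -/
lemma gal_mul {a b : ℕ} {x y : W.H Z} (hx : x ∈ galoisConiveau Φ Z a)
    (hy : y ∈ galoisConiveau Φ Z b) : x * y ∈ galoisConiveau Φ Z (a + b) := by
  refine gal_induction (q := fun x => x * y ∈ galoisConiveau Φ Z (a + b)) ?_ ?_ ?_ hx
  · rw [zero_mul]; exact Submodule.zero_mem _
  · intro x y hx hy; rw [add_mul]; exact Submodule.add_mem _ hx hy
  · intro α hα v hv
    refine gal_induction (q := fun y => v * y ∈ galoisConiveau Φ Z (a + b)) ?_ ?_ ?_ hy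
    · rw [mul_zero]; exact Submodule.zero_mem _
    · intro x y hx hy; rw [mul_add]; exact Submodule.add_mem _ hx hy
    · intro β hβ w hw
      refine mem_integralPart ?_ (gen_mul (W.map (Φ.Fr Z)) hv hw)
      have h1 := hα.mul hβ
      rw [div_mul_div_comm, ← pow_add, ← mul_add] at h1
      exact h1

/-- **Classes of cycles.** -/
lemma gal_cl [IsAlgClosed W.K] {j : ℕ} {z : Z.Cycles} (hz : Z.IsCyc j z) :
    W.cl Z z ∈ galoisConiveau Φ Z j := by
  obtain ⟨s, hs, h1⟩ := Φ.cyc hz
  have hpK : (p : W.K) ≠ 0 := cast_p_ne Φ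
  refine mem_gal_of_frob hs (γ := (p : W.K) ^ (Φ.e Z * s * j)) (eig_mem_gen h1) ?_
  have e : Φ.e Z * s * j = Φ.e Z * j * s := by ring
  rw [e, div_self (pow_ne_zero _ hpK)]
  exact isIntegral_one

/-- **Push-forwards.** -/
lemma gal_push [IsAlgClosed W.K] (g : T ⟶ Z) {a n : ℕ} (hn : T.dim + n ≤ Z.dim + a) {x : W.H T}
    (hx : x ∈ galoisConiveau Φ T a) : W.push g x ∈ galoisConiveau Φ Z n := by
  refine gal_induction (q := fun y => W.push g y ∈ galoisConiveau Φ Z n) ?_ ?_ ?_ hx
  · rw [map_zero]; exact Submodule.zero_mem _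
  · intro x y hx hy; rw [map_add]; exact Submodule.add_mem _ hx hy
  · intro α hα v hv
    obtain ⟨a₀, ha₀, h⟩ := exists_comm Φ g
    obtain ⟨s', hs', he, hc⟩ := h 1 one_pos
    rw [mul_one] at he hc
    have hQ : card Φ Z s' = card Φ T a₀ := card_eq_of Φ he
    have hQ0 : (card Φ T a₀ : W.K) ≠ 0 := card_ne Φ a₀
    set Q : W.K := (card Φ T a₀ : W.K) with hQdef
    have h2 : ∀ x : W.H T, Q ^ Z.dim • W.push g (frob Φ T a₀ x) =
        Q ^ T.dim • frob Φ Z s' (W.push g x) := by
      intro x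
      apply W.tr_ext
      intro c
      obtain ⟨b, rfl⟩ := map_iter_surjective (Φ := Φ) s' c
      have e1 : W.tr T (frob Φ T a₀ (x * W.map g b)) = Q ^ T.dim * W.tr T (x * W.map g b) := by
        have h3 := tr_iter (Φ := Φ) a₀ (x * W.map g b)
        rw [frob_apply, h3, hQdef, card_pow]
      have e2 : W.tr Z (frob Φ Z s' (W.push g x * b)) = Q ^ Z.dim * W.tr Z (W.push g x * b) := by
        have h3 := tr_iter (Φ := Φ) s' (W.push g x * b)
        rw [frob_apply, h3, hQdef, ← hQ, card_pow]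
      rw [smul_mul_assoc, smul_mul_assoc, map_smul, map_smul, W.tr_push,
        ← frob_apply (Φ := Φ) s' b, ← hc b, ← frob_mul_apply, e1, ← frob_mul_apply, e2,
        W.tr_push, smul_eq_mul, smul_eq_mul]
      ring
    have h3 : ∀ x : W.H T, frob Φ Z s' (W.push g x) =
        (Q ^ Z.dim / Q ^ T.dim) • W.push g (frob Φ T a₀ x) := by
      intro x
      have h4 := h2 x
      rw [div_eq_inv_mul, mul_smul, h4, smul_smul, inv_mul_cancel₀ (pow_ne_zero _ hQ0), one_smul]
    have h4 := gen_map (θ := W.push g) (T' := frob Φ Z s') h3 (GT.gen_frob hv a₀)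
    refine mem_gal_of_frob hs' h4 ?_
    obtain ⟨δ, hδ⟩ := Nat.exists_eq_add_of_le hn
    have h5 := hα.pow a₀
    rw [div_pow, ← pow_mul] at h5
    have e3 : (p : W.K) ^ (Φ.e Z * n * s') = Q ^ n := by
      rw [hQdef, ← hQ, card_pow]
      congr 1
      ring
    have e4 : (p : W.K) ^ (Φ.e T * a * a₀) = Q ^ a := by
      rw [hQdef, card_pow]
      congr 1
      ring
    rw [e4] at h5
    rw [e3]
    have e5 : Q ^ Z.dim / Q ^ T.dim * α ^ a₀ / Q ^ n = Q ^ δ * (α ^ a₀ / Q ^ a) := by
      rw [div_mul_eq_mul_div, div_div, mul_div_assoc', div_eq_div_iff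
        (mul_ne_zero (pow_ne_zero _ hQ0) (pow_ne_zero _ hQ0)) (pow_ne_zero _ hQ0), ← pow_add]
      have e6 : Q ^ Z.dim * Q ^ a = Q ^ (T.dim + n) * Q ^ δ := by
        rw [← pow_add, ← pow_add, hδ]
      linear_combination α ^ a₀ * e6
    rw [e5]
    refine IsIntegral.mul ?_ h5
    have h6 : IsIntegral ℤ Q := by
      have := isIntegral_algebraMap (R := ℤ) (A := W.K) (x := (card Φ T a₀ : ℤ))
      rwa [eq_intCast, Int.cast_natCast] at this
    exact h6.pow δ

/-- **The geometric coniveau filtration is contained in the Galois coniveau filtration.** -/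
theorem geo_le_gal [IsAlgClosed W.K] (n : ℕ) : geometricConiveau Φ Z n ≤ galoisConiveau Φ Z n := by
  refine Submodule.span_le.2 ?_
  rintro _ ⟨T, g, j, z, y, hy, hz, hd, rfl⟩
  have h1 := gal_mul (gal_cl hz) hy
  rw [add_zero] at h1
  exact gal_push g hd h1

/-- Push-forward followed by pull-back. -/
lemma exists_map_push_cyc {X Y : 𝒱.Obj} (g : Z ⟶ Y) (h : X ⟶ Y) : ∃ z : (X.prod Z).Cycles,
    (X.prod Z).IsCyc Y.dim z ∧
      ∀ a, W.map g (W.push h a) = W.push (snd X Z) (W.cl _ z * W.map (fst X Z) a) := by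
  have f1 : (X.prod Y).IsCyc Y.dim (ops.push (Obj.lift (𝟙 X) h) X.V.fundCycle) :=
    ops.push_mem _ X.V.fundCycle_mem (q := Y.dim) (by rw [dim_prod]; omega)
  have f2 : (Y.prod Z).IsCyc Y.dim (ops.push (Obj.lift g (𝟙 Z)) Z.V.fundCycle) :=
    ops.push_mem _ Z.V.fundCycle_mem (q := Y.dim) (by rw [dim_prod]; omega)
  have g1 : W.cl _ (ops.push (Obj.lift (𝟙 X) h) X.V.fundCycle) = W.push (Obj.lift (𝟙 X) h) 1 := by
    rw [W.cl_push, W.cl_fund]
  have g2 : W.cl _ (ops.push (Obj.lift g (𝟙 Z)) Z.V.fundCycle) = W.push (Obj.lift g (𝟙 Z)) 1 := by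
    rw [W.cl_push, W.cl_fund]
  have f3 := ops.mul_mem (ops.pull_mem (p12 X Y Z) f1) (ops.pull_mem (p23 X Y Z) f2)
  refine ⟨ops.push (p13 X Y Z) (ops.mul (ops.pull (p12 X Y Z)
    (ops.push (Obj.lift (𝟙 X) h) X.V.fundCycle)) (ops.pull (p23 X Y Z)
      (ops.push (Obj.lift g (𝟙 Z)) Z.V.fundCycle))), ?_, fun a => ?_⟩
  · refine ops.push_mem _ f3 (q := Y.dim) ?_
    rw [dim_prod, dim_prod, dim_prod]
    omega
  have e0 : W.cl _ (ops.push (p13 X Y Z) (ops.mul (ops.pull (p12 X Y Z)
      (ops.push (Obj.lift (𝟙 X) h) X.V.fundCycle)) (ops.pull (p23 X Y Z)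
        (ops.push (Obj.lift g (𝟙 Z)) Z.V.fundCycle)))) =
      W.push (p13 X Y Z) (W.map (p12 X Y Z) (W.push (Obj.lift (𝟙 X) h) 1) *
        W.map (p23 X Y Z) (W.push (Obj.lift g (𝟙 Z)) 1)) := by
    rw [W.cl_push, W.cl_mul, W.cl_pull, W.cl_pull, g1, g2]
  rw [e0]
  have e1 : ∀ a, W.corr (W.push (Obj.lift (𝟙 X) h) 1) a = W.push h a := by
    intro a
    rw [corr_apply, ← W.push_mul, ← W.push_comp, ← W.map_comp, Obj.lift_fst, Obj.lift_snd,
      W.map_id, one_mul]
  have e2 : ∀ a, W.corr (W.push (Obj.lift g (𝟙 Z)) 1) a = W.map g a := by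
    intro a
    rw [corr_apply, ← W.push_mul, ← W.push_comp, ← W.map_comp, Obj.lift_fst, Obj.lift_snd,
      W.push_id, one_mul]
  have hd' : W.push (Obj.lift g (𝟙 Z)) 1 ∈ W.gr (Y.prod Z) (2 * Y.dim) := by
    rw [← g2]
    exact W.cl_mem f2
  have h1 := congrArg (fun F => F a) (W.corr_comp (W.push (Obj.lift (𝟙 X) h) 1) hd')
  simp only [LinearMap.comp_apply] at h1
  rw [e1, e2] at h1
  rw [← h1, corr_apply]

/-- **Pull-backs.** -/
theorem geo_map [IsAlgClosed W.K] (g : S ⟶ Z) {n : ℕ} {x : W.H Z}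
    (hx : x ∈ geometricConiveau Φ Z n) : W.map g x ∈ geometricConiveau Φ S n := by
  have h1 := Submodule.apply_mem_span_image_of_mem_span (W.map g).toLinearMap hx
  refine Submodule.span_le.2 ?_ h1
  rintro _ ⟨_, ⟨T, h, j, w, y, hy, hw, hd, rfl⟩, rfl⟩
  obtain ⟨z, hz, hz'⟩ := exists_map_push_cyc (W := W) g h
  refine Submodule.subset_span ⟨T.prod S, snd T S, Z.dim + j, ops.mul z (ops.pull (fst T S) w),
    W.map (fst T S) y, gal_map _ hy, ops.mul_mem hz (ops.pull_mem _ hw), ?_, ?_⟩
  · rw [dim_prod]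
    omega
  · rw [AlgHom.toLinearMap_apply, hz', map_mul (W.map (fst T S)), W.cl_mul, W.cl_pull, mul_assoc]

/-- **Products.** -/
theorem geo_mul [IsAlgClosed W.K] {a b : ℕ} {x x' : W.H Z} (hx : x ∈ geometricConiveau Φ Z a)
    (hx' : x' ∈ geometricConiveau Φ Z b) : x * x' ∈ geometricConiveau Φ Z (a + b) := by
  have h1 := Submodule.apply_mem_span_image_of_mem_span (LinearMap.mulRight W.K x') hx
  refine Submodule.span_le.2 ?_ h1
  rintro _ ⟨_, ⟨T, f, j, w, y, hy, hw, hd, rfl⟩, rfl⟩
  rw [LinearMap.mulRight_apply, ← W.push_mul]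
  have h2 := geo_map f hx'
  have h3 := Submodule.apply_mem_span_image_of_mem_span
    ((W.push f) ∘ₗ LinearMap.mulLeft W.K (W.cl T w * y)) h2
  rw [LinearMap.comp_apply, LinearMap.mulLeft_apply] at h3
  refine Submodule.span_le.2 ?_ h3
  rintro _ ⟨_, ⟨T', f', j', w', y', hy', hw', hd', rfl⟩, rfl⟩
  refine Submodule.subset_span ⟨T', f' ≫ f, j + j', ops.mul (ops.pull f' w) w',
    W.map f' y * y', ?_, ops.mul_mem (ops.pull_mem _ hw) hw', by omega, ?_⟩
  · exact gal_mul (a := 0) (b := 0) (gal_map f' hy) hy'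
  · rw [LinearMap.comp_apply, LinearMap.mulLeft_apply, mul_push', W.push_comp, W.cl_mul,
      W.cl_pull, map_mul (W.map f')]
    congr 2
    rw [mul_assoc, mul_assoc, ← mul_assoc (W.map f' y), ← W.even_comm (W.cl_mem hw') (W.map f' y),
      mul_assoc]

/-- **Classes of cycles.** -/
theorem geo_cl [IsAlgClosed W.K] {j : ℕ} {z : Z.Cycles} (hz : Z.IsCyc j z) :
    W.cl Z z ∈ geometricConiveau Φ Z j := by
  refine Submodule.subset_span ⟨Z, 𝟙 Z, j, z, 1, ?_, hz, le_rfl, ?_⟩
  · have h1 := gal_cl (Φ := Φ) (Z := Z) Z.V.fundCycle_mem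
    rwa [W.cl_fund] at h1
  · rw [mul_one, W.push_id]

/-- The Galois coniveau of level zero. -/
theorem geo_zero {x : W.H Z} (hx : x ∈ galoisConiveau Φ Z 0) : x ∈ geometricConiveau Φ Z 0 := by
  refine Submodule.subset_span ⟨Z, 𝟙 Z, 0, Z.V.fundCycle, x, hx, Z.V.fundCycle_mem, le_rfl, ?_⟩
  rw [W.cl_fund, one_mul, W.push_id]

end Pool.Agent.W5h58.GC
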