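import Pool.Agent.W5h58.GC.CDefs

/-!
# The coniveau filtrations of products with given numbers of factors: definitions
-/

open CategoryTheory AlgebraicGeometry Polynomial

universe u v

namespace Pool.Agent.W5h58.GC

open Pool.Agent.H914 Pool.Agent.W534 VarClass Obj WeilCohomology Pool.Agent.W458.MF

/-- `Z` is a product of `n i` copies of the varieties `X i` and of copies of `Y`, in any order. -/
inductive IsProductWith {k : Type u} [Field k] {𝒱 : VarClass k} {I : Type} [DecidableEq I]
    (Y : 𝒱.Obj) (X : I → 𝒱.Obj) : 𝒱.Obj → (I → ℕ) → Prop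
  | base : IsProductWith Y X Y 0
  | member (i : I) : IsProductWith Y X (X i) (Pi.single i 1)
  | prod {Z Z' : 𝒱.Obj} {a b : I → ℕ} : IsProductWith Y X Z a → IsProductWith Y X Z' b →
      IsProductWith Y X (Z.prod Z') (a + b)

open Classical in
/-- The roots of the polynomial `x ^ g * h (x + q / x)`, with `q = p ^ (d m)` and `g = deg h`, form
`g` pairs `α, q / α`. A pair has two slopes `μ, d - μ` (`p`-adic valuations divided by the
valuation of `p ^ m`), where `μ ≤ d - μ`. For `n < g` the condition says that the sum of the `n`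
smallest numbers `μ` is at most `w`. (This sum is the maximum over `s ≤ d / 2` of the minimum over
`r` of the numbers `v (c r) / m + (n + r - g) s`, where `c r` is the coefficient of `x ^ r` in `h`
and `v` the `p`-adic valuation.) For `n ≥ g` it says that `n` times the average of the numbers `μ`
is at most `w`; if `e = 0` and `d` is even, `d - 2 s` is added to the sum of the numbers `μ`. -/
def SlopeSumAtMost (h : ℤ[X]) (p d m e n : ℕ) (w : ℝ) : Prop :=
  ∀ s : ℝ, 0 ≤ s → 2 * s ≤ d → ∃ r : ℕ, h.coeff r ≠ 0 ∧
    (n < h.natDegree → (padicValInt p (h.coeff r) : ℝ) / m + (n + r - h.natDegree) * s ≤ w) ∧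
    (h.natDegree ≤ n → n * ((padicValInt p (h.coeff r) : ℝ) / m + r * s +
      if e = 0 ∧ Even d then d - 2 * s else 0) ≤ h.natDegree * w)

/-- The subspace `sub` of the cohomology of the member has the geometric coniveau `c`; the sum of
the `n` smallest numbers `μ - c` for the smaller slopes `μ` of the member is at most `w`; and if
`e ≠ 0`, then the eigenvectors of the Frobenius endomorphism `fr` in `sub` for the eigenvalues
`± p ^ (m dim / 2)` are linear combinations of algebraic classes (a case of the Tate conjecture). -/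
structure IsAdmissible {k : Type u} [Field k] {𝒱 : VarClass k} {ops : CycleOps 𝒱}
    {W : WeilCohomology.{u, v} ops} {Y : 𝒱.Obj} {p : ℕ} (Φ : FrobSystem W p) (P : Piece W Y)
    (m e n c : ℕ) (w : ℝ) : Prop where
  coniveau : c ≠ 0 → P.sub ≤ geometricConiveau Φ P.obj c
  nonneg : 0 ≤ w
  slope : SlopeSumAtMost P.pol p P.obj.dim m e n (w + n * c)
  tate : e ≠ 0 → Pol.RootsIn (W.map P.fr).toLinearMap P.sub ((p : W.K) ^ (P.obj.dim * m))
    (Pool.Agent.H281R3.HT.algSpan W P.obj)

/-- The decreasing filtrations `A` and `B` are equal up to the defect `M`: `A n` is contained in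
`B n` for all `n`, and `B n` is contained in `A n'` for all `n, n'` with `M < n - n' + 1`. If
`M < 1`, then `A n = B n` for all `n`. -/
def EqualUpTo {K V : Type*} [Field K] [AddCommGroup V] [Module K V] (A B : ℕ → Submodule K V)
    (M : ℝ) : Prop :=
  (∀ n, A n ≤ B n) ∧ ∀ n n' : ℕ, M < n - n' + 1 → B n ≤ A n'

end Pool.Agent.W5h58.GC
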