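import Pool.Agent.W5h58.GC.Geo
import Pool.Agent.W902.MF.FLIP2
import Pool.Agent.W458.MF.Gen10
import Pool.Agent.W5h58.VL.Final

/-!
# The coniveau filtrations of all products of almost all members
-/

set_option autoImplicit false

open CategoryTheory AlgebraicGeometry Polynomial

universe u v w

namespace Pool.Agent.W5h58.GC

open Pool.Agent.H914 Pool.Agent.W534 Pool.Agent.W521.Frob VarClass Obj WeilCohomology
  Pool.Agent.H281R3.HT Pool.Agent.W458.MF Pool.Agent.W290.MF Pool.Agent.W5h58.GT
  Pool.Agent.W5h58.GN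

variable {k : Type u} [Field k] {𝒱 : VarClass k} {ops : CycleOps 𝒱}

/-- **The coniveau filtrations of all products of almost all members.** -/
theorem final_GC (W : WeilCohomology.{u, v} ops) [IsAlgClosed W.K] (σ : W.K →+* ℂ) (p : ℕ)
    (hp : p.Prime) (Φ : FrobSystem W p) (Y : 𝒱.Obj) (hY : ∀ y : W.H Y, y ∈ algSpan W Y)
    {I : Type} [Fintype I] [DecidableEq I] (F : I → Family W Y) (e : I → ℕ)
    (hF : ∀ i, Pol.HasLargeMonodromy (F i) Φ (e i)) (ε : ℝ) (hε : 0 < ε) :
    ∃ m₀ : ℕ, ∀ m ≥ m₀, ({s : ∀ i, (F i).S m |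
        ¬ ∀ (n c : I → ℕ) (w : I → ℝ),
          (∀ i, GC.IsAdmissible Φ ((F i).member m (s i)) m (e i) (n i) (c i) (w i)) →
          ∀ Z, GC.IsProductWith Y (fun i => ((F i).member m (s i)).obj) Z n →
            GC.EqualUpTo (geometricConiveau Φ Z) (galoisConiveau Φ Z) (∑ i, w i)}.ncard : ℝ) ≤
      ε * ∏ i, (Nat.card ((F i).S m) : ℝ) := by
  classical
  have hF' := fun i => largeMonodromy_of_pol (hF i)
  choose d n g l₀ δ D π hF using hF'
  obtain ⟨R, m₀, h⟩ := setup_flip (σ := σ) W216.MF.sieve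
    (W806.MF.dens W337.MF.orb W366.MF.winj W205.MF.cnt) st_odens st_edens W976.MF.SPL
    W216.MF.uni st_nt2 W976.MF.FLIP W902.MF.FLIP2 hp (integral_of_alg hY) F d n g e l₀ δ D π hF
    (ε / 2) (by positivity)
  obtain ⟨m₁, h'⟩ := setup_pats hp F d n g e l₀ δ D π hF (ε / 2) (by positivity)
  refine ⟨max m₀ m₁, fun m hm => ?_⟩
  have h0 := h m ((le_max_left _ _).trans hm)
  have h1 := h' m ((le_max_right _ _).trans hm)
  refine le_trans (Nat.cast_le.2 ((Set.ncard_le_ncard ?_ (Set.toFinite _)).trans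
    (Set.ncard_union_le _ _))) (le_trans (by push_cast; exact add_le_add h0 h1)
      (le_of_eq (by ring)))
  intro s hs
  by_contra hcon
  rw [Set.mem_union, not_or] at hcon
  obtain ⟨hc1, hc2⟩ := hcon
  rw [Set.mem_setOf_eq, not_not] at hc1 hc2
  obtain ⟨H, o, ho, hfl⟩ := hc1
  refine hs fun ν c w hw Z hZ => ?_
  have hdim : ∀ i, ((F i).member m (s i)).obj.dim = d i := fun i => (hF i).dim m (s i)
  have hmem : ∀ i, Fam.IsMember ((F i).member m (s i)) Φ m (n i) (e i) (δ i) :=
    fun i => (hF i).isMember m H.hm (s i)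
  have hX : ∀ i x, IsExt p ((F i).member m (s i)) m x →
      x ∈ algSpan W ((F i).member m (s i)).obj := by
    intro i x hx
    by_cases he : e i = 0
    · have h0 := hmem i
      rw [he] at h0
      rw [ext_zero (P := fun i => (F i).member m (s i)) H i h0 hx]
      exact Submodule.zero_mem _
    · obtain ⟨hx1, r, hr, hx2⟩ := hx
      have hsq : ((p : W.K) ^ (r * m)) ^ 2 =
          (p : W.K) ^ (((F i).member m (s i)).obj.dim * m) := by
        rw [hr, ← pow_mul]
        congr 1
        ring
      rcases hx2 with hx2 | hx2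
      · exact (hw i).tate he x hx1 _ hsq hx2
      · exact (hw i).tate he x hx1 _ (by rw [neg_sq, hsq]) hx2
  have hdeg : ∀ i, 0 < ((F i).member m (s i)).pol.natDegree := fun i => (hmem i).degree_pos
  have hfl' : HasFlips o (fun i => ((F i).member m (s i)).Q p m)
      (fun i => ((F i).member m (s i)).pol) R := by
    have e1 : (fun i => ((F i).member m (s i)).Q p m) = fun i => p ^ (d i * m) := by
      funext i
      rw [Piece.Q, hdim i]
    rw [e1]
    exact hfl
  set x : I → ℝ := fun i => if e i = 0 ∧ Even (d i) then 1 else 0 with hx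
  have hmR : (0 : ℝ) < m := by exact_mod_cast H.hm
  have hsl : ∀ i, NewtonLe p ((F i).member m (s i)).obj.dim m
      ((F i).member m (s i)).pol (ν i) (x i) (w i + ν i * c i) := by
    intro i t ht1 ht2
    obtain ⟨b, h1, h2, h3⟩ := (hw i).slope t ht1 ht2
    refine ⟨b, h1, fun hlt => ?_, fun hge => ?_⟩
    · have h4 := mul_le_mul_of_nonneg_right (h2 hlt) hmR.le
      refine le_trans (le_of_eq ?_) h4
      rw [add_mul, div_mul_cancel₀ _ hmR.ne']
      ring
    · have h4 := mul_le_mul_of_nonneg_right (h3 hge) hmR.le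
      have e1 : x i * ((((F i).member m (s i)).obj.dim - 2 * t) * m) =
          (if e i = 0 ∧ Even ((F i).member m (s i)).obj.dim then
            (((F i).member m (s i)).obj.dim : ℝ) - 2 * t else 0) * m := by
        rw [hx]
        dsimp only
        rw [hdim i]
        split_ifs
        · ring
        · ring
      rw [e1]
      refine le_trans (le_of_eq ?_) (h4.trans (le_of_eq (by ring)))
      field_simp
  have hx0 : ∀ i, 0 ≤ x i := by
    intro i
    rw [hx]
    dsimp only
    split_ifs
    · exact zero_le_one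
    · exact le_rfl
  have hox : ∀ i, o i → x i = 1 := fun i hi => if_pos (ho i hi)
  refine ⟨fun r => geo_le_gal r, fun r r' hn => ?_⟩
  exact GC.coniveau_le (P := fun i => (F i).member m (s i)) hp H o hfl' hc2 c
    (fun i => (hw i).coniveau) w x hx0 hox (fun i r hr => newtonLe_mono (hmem i).monic (hdeg i)
      (hx0 i) (hw i).nonneg (c i) (hsl i) hr) hdeg hY hX (isProductWith_iff hZ) r r' hn

end Pool.Agent.W5h58.GC
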