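import Pool.Agent.W5h58.GN.Geo
import Pool.Agent.W5h58.GC.Calc
import Pool.Agent.W5h58.GC.Defs

/-!
# The coniveau filtrations of products
-/

set_option autoImplicit false

open CategoryTheory AlgebraicGeometry Polynomial NumberField

universe u v w

namespace Pool.Agent.W5h58.GC

open Pool.Agent.H914 Pool.Agent.W534 Pool.Agent.W521.Frob VarClass Obj WeilCohomology
  Pool.Agent.H281R3.HT Pool.Agent.W536.RR Pool.Agent.W458.MF Pool.Agent.W458.MF.G
  Pool.Agent.W5h58.GT Pool.Agent.W5h58.GN

variable {k : Type u} [Field k] {𝒱 : VarClass k} {ops : CycleOps 𝒱}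
  {W : WeilCohomology.{u, v} ops} {Y Z Z' : 𝒱.Obj} {p : ℕ} {Φ : FrobSystem W p}
  {I : Type} [DecidableEq I] {P : I → Piece W Y} {m : ℕ} {σ : W.K →+* ℂ} {R : ℤ[X]}

/-- **Monotonicity.** -/
lemma newtonLe_mono {d : ℕ} {h : ℤ[X]} (hm : h.Monic) (hg : 0 < h.natDegree) {n r : ℕ} {x w : ℝ}
    (hx : 0 ≤ x) (hw0 : 0 ≤ w) (c : ℕ) (hw : NewtonLe p d m h n x (w + n * c)) (hr : r ≤ n) :
    NewtonLe p d m h r x (w + r * c) := by
  intro s hs0 hsd
  obtain ⟨b, hb, h1, h2⟩ := hw s hs0 hsd
  have hmR : (0 : ℝ) ≤ m := Nat.cast_nonneg m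
  have hrn : (r : ℝ) ≤ n := by exact_mod_cast hr
  have hr0 : (0 : ℝ) ≤ r := Nat.cast_nonneg r
  have hc0 : (0 : ℝ) ≤ c := Nat.cast_nonneg c
  have hsm : 0 ≤ s * m := mul_nonneg hs0 hmR
  have hg0 : (0 : ℝ) < h.natDegree := by exact_mod_cast hg
  have hxE : 0 ≤ x * (((d : ℝ) - 2 * s) * m) := mul_nonneg hx (mul_nonneg (by linarith) hmR)
  -- the case of many factors
  have key : h.natDegree ≤ r → r * ((padicValInt p (h.coeff b) : ℝ) + b * (s * m) +
      x * ((d - 2 * s) * m)) ≤ (w + r * c) * h.natDegree * m := by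
    intro hgr
    have h3 := h2 (hgr.trans hr)
    have hn0 : (0 : ℝ) < n := lt_of_lt_of_le hg0 (by exact_mod_cast hgr.trans hr)
    set B := (padicValInt p (h.coeff b) : ℝ) + b * (s * m) + x * ((d - 2 * s) * m) with hB
    have h4 : n * (r * B) ≤ n * ((w + r * c) * h.natDegree * m) := by
      have h5 := mul_le_mul_of_nonneg_left h3 hr0
      have h6 : r * w * (h.natDegree * m) ≤ n * w * (h.natDegree * m) :=
        mul_le_mul_of_nonneg_right (mul_le_mul_of_nonneg_right hrn hw0)
          (mul_nonneg hg0.le hmR)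
      nlinarith
    exact le_of_mul_le_mul_left h4 hn0
  rcases Nat.lt_or_ge r h.natDegree with hrg | hrg
  · rcases lt_or_ge s c with hsc | hsc
    · refine ⟨h.natDegree, ?_, fun _ => ?_, fun h3 => absurd hrg (not_lt.2 h3)⟩
      · rw [hm.coeff_natDegree]
        exact one_ne_zero
      · rw [hm.coeff_natDegree, padicValInt.one, Nat.cast_zero, zero_add, add_sub_cancel_right]
        have h3 : (r : ℝ) * (s * m) ≤ r * (c * m) :=
          mul_le_mul_of_nonneg_left (mul_le_mul_of_nonneg_right hsc.le hmR) hr0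
        have h4 : 0 ≤ w * m := mul_nonneg hw0 hmR
        nlinarith
    · refine ⟨b, hb, fun _ => ?_, fun h3 => absurd hrg (not_lt.2 h3)⟩
      have hscm : (c : ℝ) * m ≤ s * m := mul_le_mul_of_nonneg_right hsc hmR
      rcases Nat.lt_or_ge n h.natDegree with hng | hng
      · have h3 := h1 hng
        have h4 : ((n : ℝ) - r) * (c * m) ≤ (n - r) * (s * m) :=
          mul_le_mul_of_nonneg_left hscm (by linarith)
        nlinarith
      · have h3 := h2 hng
        have hn0 : (0 : ℝ) < n := lt_of_lt_of_le hg0 (by exact_mod_cast hng)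
        have hgn : (h.natDegree : ℝ) ≤ n := by exact_mod_cast hng
        have hgr : (r : ℝ) ≤ h.natDegree := by exact_mod_cast hrg.le
        have h5 : (padicValInt p (h.coeff b) : ℝ) + b * (s * m) ≤ w * m + h.natDegree * (c * m) := by
          have h6 : n * ((padicValInt p (h.coeff b) : ℝ) + b * (s * m)) ≤
              n * (w * m + h.natDegree * (c * m)) := by
            have h7 : n * ((padicValInt p (h.coeff b) : ℝ) + b * (s * m)) ≤
                (w + n * c) * h.natDegree * m := by
              refine le_trans (mul_le_mul_of_nonneg_left ?_ hn0.le) h3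
              linarith
            have h8 : w * (h.natDegree : ℝ) * m ≤ w * n * m :=
              mul_le_mul_of_nonneg_right (mul_le_mul_of_nonneg_left hgn hw0) hmR
            nlinarith
          exact le_of_mul_le_mul_left h6 hn0
        have h6 : ((h.natDegree : ℝ) - r) * (c * m) ≤ (h.natDegree - r) * (s * m) :=
          mul_le_mul_of_nonneg_left hscm (by linarith)
        nlinarith
  · exact ⟨b, hb, fun h3 => absurd hrg (not_le.2 h3), key⟩

lemma isProductWith_iff {X : I → 𝒱.Obj} {n : I → ℕ} (h : GC.IsProductWith Y X Z n) :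
    GN.IsProductWith Y X Z n := by
  induction h with
  | base => exact GN.IsProductWith.base
  | member i => exact GN.IsProductWith.member i
  | prod _ _ h1 h2 => exact GN.IsProductWith.prod h1 h2

/-- Smaller levels. -/
lemma geo_mono {n n' : ℕ} (h : n' ≤ n) : geometricConiveau Φ Z n ≤ geometricConiveau Φ Z n' := by
  refine Submodule.span_mono ?_
  rintro _ ⟨T, g, j, z, y, hy, hz, hd, rfl⟩
  exact ⟨T, g, j, z, y, hy, hz, by omega, rfl⟩

/-- Letters have integral eigenvalues. -/
lemma val_mem_gal [IsAlgClosed W.K] (H : GSetup Φ σ P m R) (a : ELetter p P m Z) :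
    a.val ∈ galoisConiveau Φ Z 0 := by
  obtain ⟨t₀, ht₀, h1⟩ := exists_glcomm (H.frob a.i) a.g
  have h2 := h1 m H.hm
  have h3 : EComm Φ (t₀ * m) [a] := by
    intro b hb
    rw [List.mem_singleton] at hb
    subst hb
    exact h2
  have h4 := eig_std H (t := t₀ * m) (t₀ := t₀) rfl (κ := 0) (A := 1) (by
    rw [frob_one, pow_zero, one_smul]) h3
  rw [pow_zero, one_mul, one_mul, List.map_cons, List.map_nil, List.prod_cons, List.prod_nil,
    mul_one, List.map_cons, List.map_nil, List.prod_cons, List.prod_nil, mul_one] at h4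
  refine mem_gal_of_frob (Nat.mul_pos ht₀ H.hm) (eig_mem_gen h4) ?_
  rw [mul_zero, zero_mul, pow_zero, div_one]
  exact IsIntegral.pow ⟨_, weil_monic _ (H.monic a.i), a.isEig.root⟩ _

/-- Products of letters. -/
lemma prod_mem_geo [IsAlgClosed W.K] (H : GSetup Φ σ P m R) {c : I → ℕ}
    (hc : ∀ i, c i ≠ 0 → (P i).sub ≤ geometricConiveau Φ (P i).obj (c i))
    (l : List (ELetter p P m Z)) :
    (l.map ELetter.val).prod ∈ geometricConiveau Φ Z (l.map fun a => c a.i).sum := by
  induction l with
  | nil =>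
    have h1 := geo_cl (Φ := Φ) (Z := Z) Z.V.fundCycle_mem
    rwa [W.cl_fund] at h1
  | cons a l ih =>
    rw [List.map_cons (f := ELetter.val), List.prod_cons, List.map_cons, List.sum_cons]
    refine geo_mul ?_ ih
    by_cases h : c a.i = 0
    · rw [h]
      exact geo_zero (val_mem_gal H a)
    · exact geo_map a.g (hc a.i h a.isEig.mem)

lemma sum_counts [Fintype I] (c : I → ℕ) (l : List (ELetter p P m Z)) :
    (l.map fun a => c a.i).sum = ∑ i, (l.filter fun a => a.i = i).length * c i := by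
  induction l with
  | nil => simp
  | cons a l ih =>
    rw [List.map_cons, List.sum_cons, ih]
    have h1 : ∀ i, (List.filter (fun x => decide (x.i = i)) (a :: l)).length * c i =
        (if a.i = i then c i else 0) +
          (List.filter (fun x => decide (x.i = i)) l).length * c i := by
      intro i
      rw [List.filter_cons]
      by_cases hi : a.i = i
      · rw [if_pos (by simpa using hi), if_pos hi, List.length_cons]
        ring
      · rw [if_neg (by simpa using hi), if_neg hi, zero_add]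
    rw [Finset.sum_congr rfl fun i _ => h1 i, Finset.sum_add_distrib, Finset.sum_ite_eq,
      if_pos (Finset.mem_univ _)]

/-- **The coniveau filtrations.** -/
theorem coniveau_le [Fintype I] [IsAlgClosed W.K] (hp : p.Prime) (H : GSetup Φ σ P m R)
    (o : I → Prop) (hF : HasFlips o (fun i => (P i).Q p m) (fun i => (P i).pol) R)
    (hPat : HasPats fun i => (P i).pol) {n : I → ℕ} (c₀ : I → ℕ)
    (hc₀ : ∀ i, c₀ i ≠ 0 → (P i).sub ≤ geometricConiveau Φ (P i).obj (c₀ i))
    (w x : I → ℝ) (hx : ∀ i, 0 ≤ x i) (hox : ∀ i, o i → x i = 1)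
    (hw : ∀ i, ∀ k ≤ n i, NewtonLe p (P i).obj.dim m (P i).pol k (x i) (w i + k * c₀ i))
    (hdeg : ∀ i, 0 < (P i).pol.natDegree)
    (hY : ∀ y : W.H Y, y ∈ algSpan W Y)
    (hX : ∀ i x, IsExt p (P i) m x → x ∈ algSpan W (P i).obj)
    (hZ : GN.IsProductWith Y (fun i => (P i).obj) Z n) (ν ν' : ℕ) (hM : ∑ i, w i < ν - ν' + 1) :
    galoisConiveau Φ Z ν ≤ geometricConiveau Φ Z ν' := by
  have hw0 : ∀ i, 0 ≤ w i := fun i => by
    have h := newtonLe_nonneg H.hm (hdeg i) (hx i) (hw i 0 (Nat.zero_le _))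
    rwa [Nat.cast_zero, zero_mul, add_zero] at h
  refine iSup₂_le ?_
  intro α hα c hc
  obtain ⟨t₀, ht₀, h1⟩ := span_resAt H hY hX hZ c
  set t := t₀ * m with ht
  have htp : 0 < t := Nat.mul_pos ht₀ H.hm
  have h2 := h1 m H.hm
  have hc' : c ∈ Module.End.maxGenEigenspace (frob Φ Z t) (α ^ t) := gen_frob hc t
  have hgen : ∀ x ∈ {c | IsResAt Φ P m Z n t c}, ∃ ν : W.K,
      x ∈ (frob Φ Z t).maxGenEigenspace ν := by
    rintro x ⟨κ, A, l, hA, hA', hl, -, -, rfl⟩
    exact ⟨_, eig_mem_gen (eig_std H ht hA' hl)⟩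
  have h5 := mem_span_gen hgen h2 hc'
  refine Submodule.span_le.2 ?_ h5
  rintro x ⟨hx, hxα⟩
  by_cases hx0 : x = 0
  · rw [hx0]
    exact Submodule.zero_mem _
  obtain ⟨κ, A, l, hA, hA', hl, hlM, hno, rfl⟩ := hx
  have h6 := eq_of_mem_gen (eig_mem_gen (eig_std H ht hA' hl)) hxα hx0
  -- the codimension
  have hκ : ν' ≤ κ + (l.map fun a => c₀ a.i).sum := by
    by_contra hcon
    rw [not_le] at hcon
    obtain ⟨C, hC⟩ : ∃ C, C = (l.map fun a => c₀ a.i).sum := ⟨_, rfl⟩
    rw [← hC] at hcon
    have hM0 : 0 ≤ ∑ i, w i := Finset.sum_nonneg fun i _ => hw0 i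
    have hνν : ν' ≤ ν := by
      have h10 : (ν' : ℝ) < ν + 1 := by linarith
      have h11 : (ν' : ℝ) < ((ν + 1 : ℕ) : ℝ) := by
        push_cast
        exact h10
      have h12 : ν' < ν + 1 := by exact_mod_cast h11
      omega
    have hκν : κ < ν := by omega
    have hpK : (p : W.K) ≠ 0 := Nat.cast_ne_zero.2 hp.ne_zero
    have hint : IsIntegral ℤ ((((l.map fun a => (a.i, a.lam)) : List (I × W.K)).map
        fun x => x.2 ^ (Φ.e Z * t₀)).prod / (p : W.K) ^ (m * (Φ.e Z * t₀) * (ν - κ))) := by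
      have h7 : IsIntegral ℤ ((α / (p : W.K) ^ (Φ.e Z * ν)) ^ t) := hα.pow t
      have h8 : (((l.map fun a => (a.i, a.lam)) : List (I × W.K)).map
        fun x => x.2 ^ (Φ.e Z * t₀)).prod = (l.map ELetter.lam).prod ^ (Φ.e Z * t₀) := by
        clear hl hlM hno h6 hx0 hxα hA hA' hC
        induction l with
        | nil => simp
        | cons a l ih =>
          rw [List.map_cons, List.map_cons, List.prod_cons, ih, List.map_cons, List.prod_cons,
            mul_pow]
      rw [h8]
      convert h7 using 1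
      have e1 : (p : W.K) ^ (Φ.e Z * ν * t) =
          (p : W.K) ^ (Φ.e Z * t * κ) * (p : W.K) ^ (m * (Φ.e Z * t₀) * (ν - κ)) := by
        rw [← pow_add]
        congr 1
        obtain ⟨δ, rfl⟩ := Nat.exists_eq_add_of_lt hκν
        rw [show κ + δ + 1 - κ = δ + 1 by omega, ht]
        ring
      rw [div_pow, ← h6, card_pow, ← pow_mul, e1]
      exact (mul_div_mul_left _ _ (pow_ne_zero _ hpK)).symm
    have h9 := count_leK hp H.hm (fun i => (P i).obj.dim) H.monic o hF hPat
      (fun i => (l.filter fun a => a.i = i).length)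
      (fun i => w i + (l.filter fun a => a.i = i).length * c₀ i) x hx hox
      (fun i => hw i _ (hlM i)) σ
      (l.map fun a => (a.i, a.lam)) (by
        intro x hx
        obtain ⟨a, -, rfl⟩ := List.mem_map.1 hx
        exact a.isEig.root) (by
        intro i
        rw [List.filter_map, List.length_map]
        exact le_of_eq rfl) (by
        intro x hx hc
        obtain ⟨a, ha, rfl⟩ := List.mem_map.1 hx
        obtain ⟨b, hb, hbe⟩ := List.mem_map.1 hc
        have e1 : b.i = a.i := (Prod.ext_iff.1 hbe).1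
        have e2 : b.lam = (((P a.i).Q p m : ℕ) : W.K) / a.lam := (Prod.ext_iff.1 hbe).2
        have ha0 : a.lam ≠ 0 := root_ne_zero (GSetup.Q_pos H a.i).ne' (H.monic a.i) a.isEig.root
        have e3 : a.lam * b.lam = ((P a.i).Q p m : W.K) := by
          rw [e2]
          field_simp
        have hne : a ≠ b := by
          rintro rfl
          have h10 := ne_div_of_sep (GSetup.Q_pos H a.i) (H.monic a.i) (H.sep a.i)
            (aeval_sigma σ a.isEig.root)
          apply h10
          have h11 := congrArg σ e2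
          rw [map_div₀, map_natCast] at h11
          exact h11
        apply hno
        classical
        refine ⟨a, b, (l.erase a).erase b, ?_, e1, e3⟩
        have h12 : b ∈ l.erase a := (List.mem_erase_of_ne hne.symm).2 hb
        exact (List.perm_cons_erase ha).trans ((List.perm_cons_erase h12).cons a))
      (Φ.e Z * t₀) (Nat.mul_pos (Φ.e_pos Z) ht₀) (ν - κ) hint
    rw [Nat.cast_sub hκν.le, Finset.sum_add_distrib] at h9
    have h13 : (C : ℝ) = ∑ i, ((l.filter fun a => a.i = i).length : ℝ) * c₀ i := by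
      rw [hC, sum_counts]
      push_cast
      rfl
    have h14 : (κ : ℝ) + C + 1 ≤ ν' := by exact_mod_cast hcon
    rw [← h13] at h9
    linarith
  obtain ⟨z, hz, rfl⟩ := hA
  exact geo_mono hκ (geo_mul (geo_cl hz) (prod_mem_geo H hc₀ l))

end Pool.Agent.W5h58.GC
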